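import Pool.Agent.helper77.MC.Spec

set_option autoImplicit false

namespace Pool.Agent.helper77.MC

open Finset Numbering

open Pool.Agent.helper72.UP in
theorem CC_zero {n k : ℕ} (x : Fin n → ℝ) (h0 : ∀ i, x i < 0) : zer x k = 0 := by
  unfold zer
  rw [Finset.card_eq_zero, Finset.filter_eq_empty_iff]
  rintro s _ ⟨hs, _, h0s⟩
  have h1 := Finset.sum_pos (fun i (_ : i ∈ s) => neg_pos.mpr (h0 i)) hs
  rw [Finset.sum_neg_distrib, h0s] at h1
  simp at h1

theorem CC_card {n : ℕ} (x : Fin n → ℝ) (hx : ∀ i, x i ≠ 0) :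
    #{i : Fin n | 0 < x i} + Fintype.card {i : Fin n // x i < 0} = n := by
  rw [Fintype.card_subtype]
  have e : (univ.filter (fun i : Fin n => x i < 0)) = univ.filter (fun i : Fin n => ¬ 0 < x i) := by
    apply Finset.filter_congr
    intro i _
    constructor
    · intro h; exact not_lt.mpr h.le
    · intro h; exact lt_of_le_of_ne (not_lt.mp h) (hx i)
  rw [e, Finset.card_filter_add_card_filter_not]
  simp

open Pool.Agent.helper72.UP in
theorem CC (h1 : P1_stmt) (h2 : P2_stmt) (h3 : S1_stmt) (h4 : S2_stmt) (h5 : AN_stmt) : CC_stmt := by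
  intro ε hε
  obtain ⟨n₀, hn6, hA⟩ := h5 ε hε
  refine ⟨n₀, ?_⟩
  intro n k x hn hk1 hk2 hx hp
  obtain ⟨A1, A2, A3⟩ := hA n k hn hk1 hk2
  have hk : 2 ≤ k := by
    have e1 : (6:ℝ) ≤ n := by exact_mod_cast hn6.trans hn
    have e2 : (2:ℝ) ≤ k := by linarith
    exact_mod_cast e2
  have hcard := CC_card x hx
  have hy : ∀ b : {i : Fin n // x i < 0}, 0 < (fun i : {i : Fin n // x i < 0} => - x i.1) b :=
    fun b => neg_pos.mpr b.2
  have hcases : #{i : Fin n | 0 < x i} = 0 ∨ #{i : Fin n | 0 < x i} = 1 ∨ #{i : Fin n | 0 < x i} = 2 := by omega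
  rcases hcases with h | h | h
  · have h0 : ∀ i, x i < 0 := by
      intro i
      rw [Finset.card_eq_zero, Finset.filter_eq_empty_iff] at h
      exact lt_of_le_of_ne (not_lt.mp (h (mem_univ i))) (hx i)
    rw [CC_zero x h0]
    exact Nat.zero_le _
  · obtain ⟨u, hu⟩ := Finset.card_eq_one.mp h
    have hiff : ∀ i, 0 < x i ↔ i = u := by
      intro i
      have e := Finset.ext_iff.mp hu i
      simpa using e
    have hβ : Fintype.card {i : Fin n // x i < 0} = n - 1 := by omega
    have e1 := h3 n k x u hx hiff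
    have e2 := h1 {i : Fin n // x i < 0} (fun i : {i : Fin n // x i < 0} => - x i.1) (x u) (k - 1)
      (2 * ((n - 2).choose (k - 1) : ℝ)) hy ((hiff u).mpr rfl) (by positivity)
      (by rw [hβ]; exact A3)
    have e3 : (zer x k : ℝ) ≤ 2 * ((n - 2).choose (k - 1) : ℝ) := le_trans (by exact_mod_cast e1) e2
    exact_mod_cast e3
  · obtain ⟨u, v, huv, hu⟩ := Finset.card_eq_two.mp h
    have hiff : ∀ i, 0 < x i ↔ i = u ∨ i = v := by
      intro i
      have e := Finset.ext_iff.mp hu i
      simpa using e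
    have hβ : Fintype.card {i : Fin n // x i < 0} = n - 2 := by omega
    have hk2' : k - 2 + 1 = k - 1 := by omega
    have e1 := h4 n k x u v hx huv hiff
    have e2 := h2 {i : Fin n // x i < 0} (fun i : {i : Fin n // x i < 0} => - x i.1) (x u) (x v) (k - 2)
      ((n - 2).choose (k - 1) : ℝ) hy ((hiff u).mpr (Or.inl rfl)) ((hiff v).mpr (Or.inr rfl)) (by positivity)
      (by rw [hβ, hk2']; exact A1) (by rw [hβ]; exact A2)
    rw [hk2'] at e2
    have e3 : (zer x k : ℝ) ≤ 2 * ((n - 2).choose (k - 1) : ℝ) := le_trans (by exact_mod_cast e1) e2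
    exact_mod_cast e3

end Pool.Agent.helper77.MC
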